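import Mathlib
import Pool.Agent.R29.FRExp

/-!
# Multiple state transfer which does not arise from a switching automorphism (MP_620d87_co, Q1)
-/

set_option autoImplicit false
set_option linter.unusedSectionVars false
set_option linter.unusedSimpArgs false

open Matrix Finset

namespace Pool.Agent.Results.MP_620d87_co.NoSwitching

/-- An oriented graph: `arc a b` says that there is an edge between `a` and `b` and it points from
`a` to `b`. -/
structure OrientedGraph (V : Type) where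
  arc : V → V → Prop
  asymm : ∀ a b, arc a b → ¬ arc b a

section Defs
variable {V : Type} (X : OrientedGraph V)

open Classical in
/-- The adjacency matrix. -/
noncomputable def OrientedGraph.adj : Matrix V V ℂ :=
  Matrix.of fun a b => if X.arc a b then 1 else if X.arc b a then -1 else 0

/-- Perfect state transfer from `a` to `b`. -/
def OrientedGraph.PST [Fintype V] [DecidableEq V] (a b : V) : Prop :=
  ∃ (τ : ℝ) (l : ℂ), ‖l‖ = 1 ∧
    NormedSpace.exp ((τ : ℂ) • X.adj) *ᵥ Pi.single a 1 = l • Pi.single b (1 : ℂ)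

/-- The switching automorphism `P̃ e_a = s a • e_(σ a)`, where `σ` is a permutation of the vertices
and the `s a` are signs: `P̃ᵀ A P̃ = A`. -/
def OrientedGraph.IsSwitchingAutomorphism (σ : Equiv.Perm V) (s : V → ℤˣ) : Prop :=
  ∀ a b, ((s a : ℤ) : ℂ) * ((s b : ℤ) : ℂ) * X.adj (σ a) (σ b) = X.adj a b

/-- Multiple state transfer on `S` arises from a switching automorphism. -/
def OrientedGraph.ArisesFromSwitching [Fintype V] [DecidableEq V] (S : Finset V) : Prop :=
  ∃ (σ : Equiv.Perm V) (s : V → ℤˣ), X.IsSwitchingAutomorphism σ s ∧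
    ∃ a ∈ S, X.PST a (σ a) ∧ ∀ b ∈ S, ∃ k : ℕ, (σ ^ k) a = b

end Defs

/-- the vertices -/
abbrev W : Type := ZMod 3 ⊕ (ZMod 3 × ZMod 27)

/-- the arcs of the example -/
def arcs : W → W → Prop
  | Sum.inl i, Sum.inl j => j = i + 1
  | Sum.inl i, Sum.inr y => i = y.1
  | Sum.inr _, Sum.inl _ => False
  | Sum.inr x, Sum.inr y => (y.1 = x.1 + 1 ∧ x.2 = y.2) ∨ (x.1 = 0 ∧ y.1 = 0 ∧ y.2 = x.2 + 1)

instance : DecidableRel arcs := fun u v => by
  rcases u with i | x <;> rcases v with j | y <;> simp only [arcs] <;> infer_instance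

theorem z3 : ∀ i j : ZMod 3, j = i + 1 → ¬ i = j + 1 := by decide
theorem z27 : ∀ i j : ZMod 27, j = i + 1 → ¬ i = j + 1 := by decide +kernel

theorem arcs_asymm : ∀ a b, arcs a b → ¬ arcs b a := by
  rintro (i | x) (j | y) h h'
  · exact z3 i j h h'
  · exact h'
  · exact h
  · rcases h with ⟨h1, h2⟩ | ⟨h1, h2, h3⟩
    · rcases h' with ⟨h4, h5⟩ | ⟨h4, h5, h6⟩
      · exact z3 _ _ h1 h4
      · rw [h4, h5] at h1
        exact absurd h1 (by decide)
    · rcases h' with ⟨h4, h5⟩ | ⟨h4, h5, h6⟩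
      · rw [h1, h2] at h4
        exact absurd h4 (by decide)
      · exact z27 _ _ h3 h6

/-- the example: 84 vertices -/
def X0 : OrientedGraph W := ⟨arcs, arcs_asymm⟩

theorem adj_eq (u v : W) : X0.adj u v
    = (if arcs u v then (1 : ℂ) else 0) - (if arcs v u then 1 else 0) := by
  unfold OrientedGraph.adj
  rw [Matrix.of_apply]
  by_cases h : arcs u v
  · have h' : X0.arc u v := h
    rw [if_pos h', if_pos h, if_neg (arcs_asymm _ _ h)]; simp
  · have hn : ¬ X0.arc u v := h
    rw [if_neg hn, if_neg h]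
    by_cases h' : arcs v u
    · have h'' : X0.arc v u := h'
      rw [if_pos h'', if_pos h']; simp
    · have h'' : ¬ X0.arc v u := h'
      rw [if_neg h'', if_neg h']; simp

theorem z27_succ : ∀ x : ZMod 27, x ≠ x + 1 := by decide +kernel

theorem split_sum (f : ZMod 3 → ℂ) (i j : ZMod 3) (x y : ZMod 27) :
    (if ((j = i + 1 ∧ x = y) ∨ (i = 0 ∧ j = 0 ∧ y = x + 1)) then f j else 0)
        = (if (j, y) = (i + 1, x) then f (i + 1) else 0)
          + (if (j, y) = (0, x + 1) then (if i = 0 then f 0 else 0) else 0) := by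
  have hx := z27_succ x
  by_cases hP : j = i + 1 ∧ x = y
  · obtain ⟨rfl, rfl⟩ := hP
    rw [if_pos (Or.inl ⟨rfl, rfl⟩), if_pos rfl, if_neg (fun h => hx (Prod.mk.inj h).2), add_zero]
  · by_cases hQ : i = 0 ∧ j = 0 ∧ y = x + 1
    · obtain ⟨rfl, rfl, rfl⟩ := hQ
      rw [if_pos (Or.inr ⟨rfl, rfl, rfl⟩), if_neg (fun h => hx (Prod.mk.inj h).2.symm), if_pos rfl,
        if_pos rfl, zero_add]
    · rw [if_neg (not_or.2 ⟨hP, hQ⟩), if_neg (fun h => hP ⟨(Prod.mk.inj h).1, (Prod.mk.inj h).2.symm⟩),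
        zero_add]
      split_ifs with h1 h2
      · exact absurd ⟨h2, (Prod.mk.inj h1).1, (Prod.mk.inj h1).2⟩ hQ
      · rfl
      · rfl

theorem split_sum' (f : ZMod 3 → ℂ) (i j : ZMod 3) (x y : ZMod 27) :
    (if ((i = j + 1 ∧ y = x) ∨ (j = 0 ∧ i = 0 ∧ x = y + 1)) then f j else 0)
        = (if (j, y) = (i - 1, x) then f (i - 1) else 0)
          + (if (j, y) = (0, x - 1) then (if i = 0 then f 0 else 0) else 0) := by
  by_cases hP : i = j + 1 ∧ y = x
  · obtain ⟨rfl, rfl⟩ := hP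
    have hx := z27_succ (y - 1)
    rw [sub_add_cancel] at hx
    rw [if_pos (Or.inl ⟨rfl, rfl⟩), if_pos (by rw [add_sub_cancel_right]),
      if_neg (fun h => hx (Prod.mk.inj h).2.symm), add_zero, add_sub_cancel_right]
  · by_cases hQ : j = 0 ∧ i = 0 ∧ x = y + 1
    · obtain ⟨rfl, rfl, rfl⟩ := hQ
      have hx := z27_succ y
      rw [if_pos (Or.inr ⟨rfl, rfl, rfl⟩), if_neg (fun h => hx (Prod.mk.inj h).2),
        if_pos (by rw [add_sub_cancel_right]), if_pos rfl, zero_add]
    · rw [if_neg (not_or.2 ⟨hP, hQ⟩), if_neg (fun h => hP ⟨by rw [(Prod.mk.inj h).1]; ring, (Prod.mk.inj h).2⟩),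
        zero_add]
      split_ifs with h1 h2
      · exact absurd ⟨(Prod.mk.inj h1).1, h2, by rw [(Prod.mk.inj h1).2]; ring⟩ hQ
      · rfl
      · rfl

/-- functions constant on cells -/
def lift (g f : ZMod 3 → ℂ) : W → ℂ := Sum.elim g (fun x => f x.1)

theorem mulVec_lift (g f : ZMod 3 → ℂ) :
    X0.adj *ᵥ lift g f = lift (fun i => g (i + 1) - g (i - 1) + 27 * f i)
      (fun i => f (i + 1) - f (i - 1) - g i) := by
  ext u
  simp only [Matrix.mulVec, dotProduct, adj_eq, sub_mul, ite_mul, one_mul, zero_mul,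
    Finset.sum_sub_distrib]
  rw [Fintype.sum_sum_type, Fintype.sum_sum_type]
  rcases u with i | x
  · have h1 : ∀ j : ZMod 3, (if arcs (Sum.inl i) (Sum.inl j) then lift g f (Sum.inl j) else 0)
        = if j = i + 1 then g j else 0 := fun j => rfl
    have h2 : ∀ y : ZMod 3 × ZMod 27, (if arcs (Sum.inl i) (Sum.inr y) then lift g f (Sum.inr y) else 0)
        = if i = y.1 then f y.1 else 0 := fun j => rfl
    have h3 : ∀ j : ZMod 3, (if arcs (Sum.inl j) (Sum.inl i) then lift g f (Sum.inl j) else 0)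
        = if j = i - 1 then g j else 0 := fun j => by
      by_cases h : i = j + 1
      · rw [if_pos (show j = i - 1 by rw [h]; ring)]
        exact if_pos h
      · rw [if_neg (show ¬ j = i - 1 from fun h' => h (by rw [h']; ring))]
        exact if_neg h
    have h4 : ∀ y : ZMod 3 × ZMod 27, (if arcs (Sum.inr y) (Sum.inl i) then lift g f (Sum.inr y) else 0)
        = 0 := fun j => if_neg (fun h => h)
    simp only [h1, h2, h3, h4]
    rw [Fintype.sum_prod_type]
    simp only [Finset.sum_ite_eq', Finset.sum_ite_eq, Finset.mem_univ, if_true, Finset.sum_const,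
      Finset.card_univ, ZMod.card, nsmul_eq_mul, Finset.sum_const_zero, lift, Sum.elim_inl]
    push_cast
    simp only [mul_ite, mul_zero, Finset.sum_ite_eq, Finset.mem_univ, if_true]
    ring
  · have h1 : ∀ j : ZMod 3, (if arcs (Sum.inr x) (Sum.inl j) then lift g f (Sum.inl j) else 0)
        = 0 := fun j => if_neg (fun h => h)
    have h2 : ∀ y : ZMod 3 × ZMod 27, (if arcs (Sum.inr x) (Sum.inr y) then lift g f (Sum.inr y) else 0)
        = (if y = (x.1 + 1, x.2) then f (x.1 + 1) else 0)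
          + (if y = (0, x.2 + 1) then (if x.1 = 0 then f 0 else 0) else 0) := fun y =>
      split_sum f x.1 y.1 x.2 y.2
    have h3 : ∀ j : ZMod 3, (if arcs (Sum.inl j) (Sum.inr x) then lift g f (Sum.inl j) else 0)
        = if j = x.1 then g j else 0 := fun j => rfl
    have h4 : ∀ y : ZMod 3 × ZMod 27, (if arcs (Sum.inr y) (Sum.inr x) then lift g f (Sum.inr y) else 0)
        = (if y = (x.1 - 1, x.2) then f (x.1 - 1) else 0)
          + (if y = (0, x.2 - 1) then (if x.1 = 0 then f 0 else 0) else 0) := fun y =>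
      split_sum' f x.1 y.1 x.2 y.2
    simp only [h1, h2, h3, h4]
    simp only [Finset.sum_add_distrib, Finset.sum_ite_eq', Finset.mem_univ,
      if_true, Finset.sum_const_zero, lift, Sum.elim_inr]
    ring

/-- powers of a cube root of unity -/
def pw (z : ℂ) (i : ZMod 3) : ℂ := z ^ i.val

theorem pw_add (z : ℂ) (hz : z ^ 3 = 1) (i : ZMod 3) : pw z (i + 1) = z * pw z i := by
  have h0 : ∀ i : ZMod 3, i = 0 ∨ i = 1 ∨ i = 2 := by decide
  have e0 : (0 : ZMod 3).val = 0 := rfl
  have e1 : (1 : ZMod 3).val = 1 := rfl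
  have e2 : (2 : ZMod 3).val = 2 := rfl
  rcases h0 i with rfl | rfl | rfl
  · rw [zero_add]; unfold pw; rw [e0, e1]; simp
  · rw [show (1 : ZMod 3) + 1 = 2 by decide]; unfold pw; rw [e1, e2]; ring
  · rw [show (2 : ZMod 3) + 1 = 0 by decide]; unfold pw; rw [e0, e2, pow_zero, ← hz]; ring

theorem pw_sub (z : ℂ) (hz : z ^ 3 = 1) (i : ZMod 3) : pw z (i - 1) = z ^ 2 * pw z i := by
  have h := pw_add z hz (i - 1)
  rw [sub_add_cancel] at h
  rw [h]
  linear_combination (-pw z (i - 1)) * hz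

theorem mulVec_pw (z : ℂ) (hz : z ^ 3 = 1) (x y : ℂ) :
    X0.adj *ᵥ lift (fun i => x * pw z i) (fun i => y * pw z i)
      = lift (fun i => (x * (z - z ^ 2) + 27 * y) * pw z i)
        (fun i => (y * (z - z ^ 2) - x) * pw z i) := by
  rw [mulVec_lift]
  congr 1
  · funext i
    rw [pw_add z hz, pw_sub z hz]; ring
  · funext i
    rw [pw_add z hz, pw_sub z hz]; ring

theorem lift_smul (c : ℂ) (g f : ZMod 3 → ℂ) : c • lift g f = lift (fun i => c * g i) (fun i => c * f i) := by
  ext v; rcases v with i | x <;> rfl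

theorem lift_add (g f g' f' : ZMod 3 → ℂ) :
    lift g f + lift g' f' = lift (fun i => g i + g' i) (fun i => f i + f' i) := by
  ext v; rcases v with i | x <;> rfl

/-- the time -/
noncomputable def t0 : ℝ := 2 * Real.pi / (3 * √3)

noncomputable def s0 : ℂ := 3 * √3 * Complex.I

theorem sq3 : ((√3 : ℝ) : ℂ) ^ 2 = 3 := by
  have : (√3 : ℝ) ^ 2 = 3 := Real.sq_sqrt (by norm_num)
  exact_mod_cast this

theorem s0_sq : s0 ^ 2 = -27 := by
  unfold s0
  rw [mul_pow, mul_pow, sq3, Complex.I_sq]; norm_num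

theorem sqrt3_ne : ((√3 : ℝ) : ℂ) ≠ 0 := by
  have : (√3 : ℝ) ≠ 0 := (Real.sqrt_pos.2 (by norm_num)).ne'
  exact_mod_cast this

theorem t0_s0 : (t0 : ℂ) * s0 = 2 * Real.pi * Complex.I := by
  unfold t0 s0
  have := sqrt3_ne
  push_cast
  field_simp

theorem eig_pm (z : ℂ) (hz : z ^ 3 = 1) (s : ℂ) (hs : s ^ 2 = -27) :
    X0.adj *ᵥ lift (fun i => (1 / 2) * pw z i) (fun i => (-1 / (2 * s)) * pw z i)
      = ((z - z ^ 2) + s) • lift (fun i => (1 / 2) * pw z i) (fun i => (-1 / (2 * s)) * pw z i) := by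
  have hs0 : s ≠ 0 := by rintro rfl; norm_num at hs
  rw [mulVec_pw z hz, lift_smul]
  congr 1
  · funext i
    field_simp
    linear_combination (-pw z i) * hs
  · funext i
    field_simp
    ring

theorem U_pw (z : ℂ) (hz : z ^ 3 = 1) :
    NormedSpace.exp ((t0 : ℂ) • X0.adj) *ᵥ lift (pw z) 0
      = Complex.exp ((t0 : ℂ) * (z - z ^ 2)) • lift (pw z) 0 := by
  have hs0 : s0 ≠ 0 := by
    intro h
    have := s0_sq
    rw [h] at this; norm_num at this
  have h1 := eig_pm z hz s0 s0_sq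
  have h2 := eig_pm z hz (-s0) (by rw [neg_sq, s0_sq])
  have key : ∀ (y : W → ℂ) (θ : ℂ), X0.adj *ᵥ y = θ • y →
      NormedSpace.exp ((t0 : ℂ) • X0.adj) *ᵥ y = Complex.exp ((t0 : ℂ) * θ) • y := by
    intro y θ hy
    apply Pool.Agent.R29.FR.exp_mulVec_eig
    rw [Matrix.smul_mulVec, hy, smul_smul]
  have h3 := key _ _ h1
  have h4 := key _ _ h2
  have e1 : Complex.exp ((t0 : ℂ) * ((z - z ^ 2) + s0)) = Complex.exp ((t0 : ℂ) * (z - z ^ 2)) := by
    rw [mul_add, Complex.exp_add, t0_s0, Complex.exp_two_pi_mul_I, mul_one]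
  have e2 : Complex.exp ((t0 : ℂ) * ((z - z ^ 2) + -s0)) = Complex.exp ((t0 : ℂ) * (z - z ^ 2)) := by
    rw [mul_add, mul_neg, Complex.exp_add, t0_s0, Complex.exp_neg, Complex.exp_two_pi_mul_I]; simp
  rw [e1] at h3
  rw [e2] at h4
  have hsum : lift (pw z) 0 = lift (fun i => (1 / 2) * pw z i) (fun i => (-1 / (2 * s0)) * pw z i)
      + lift (fun i => (1 / 2) * pw z i) (fun i => (-1 / (2 * -s0)) * pw z i) := by
    rw [lift_add]
    congr 1
    · funext i; ring
    · funext i
      rw [Pi.zero_apply]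
      field_simp
      ring
  rw [hsum, Matrix.mulVec_add, h3, h4, smul_add]

/-- the cube root of unity -/
noncomputable def om : ℂ := -1 / 2 + (√3 / 2) * Complex.I

theorem om_rel : 1 + om + om ^ 2 = 0 := by
  unfold om
  have h := sq3
  have hI := Complex.I_sq
  linear_combination (Complex.I ^ 2 / 4) * h + (3 / 4 : ℂ) * hI

theorem om_cube : om ^ 3 = 1 := by
  linear_combination (om - 1) * om_rel

theorem exp_om : Complex.exp ((t0 : ℂ) * (om - om ^ 2)) = om := by
  have h1 : om - om ^ 2 = √3 * Complex.I := by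
    have h2 : om ^ 2 = -1 - om := by linear_combination om_rel
    rw [h2]; unfold om; ring
  have h2 : (t0 : ℂ) * (om - om ^ 2) = ((2 * Real.pi / 3 : ℝ) : ℂ) * Complex.I := by
    rw [h1]; unfold t0
    have := sqrt3_ne
    push_cast
    field_simp
  rw [h2, Complex.exp_mul_I, ← Complex.ofReal_cos, ← Complex.ofReal_sin]
  have h3 : (2 * Real.pi / 3 : ℝ) = Real.pi - Real.pi / 3 := by ring
  rw [h3, Real.cos_pi_sub, Real.sin_pi_sub, Real.cos_pi_div_three, Real.sin_pi_div_three]
  unfold om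
  push_cast
  ring

theorem exp_om2 : Complex.exp ((t0 : ℂ) * (om ^ 2 - (om ^ 2) ^ 2)) = om ^ 2 := by
  have h1 : (om ^ 2) ^ 2 = om := by linear_combination om * om_cube
  have h2 : (t0 : ℂ) * (om ^ 2 - om) = -((t0 : ℂ) * (om - om ^ 2)) := by ring
  rw [h1, h2, Complex.exp_neg, exp_om]
  have h0 : om ≠ 0 := by
    intro h
    have := om_cube
    rw [h] at this; norm_num at this
  field_simp
  exact om_cube.symm

/-- The transition matrix shifts the functions supported on the three special vertices. -/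
theorem shift_pw (z : ℂ) (hz : z ^ 3 = 1) (he : Complex.exp ((t0 : ℂ) * (z - z ^ 2)) = z) :
    NormedSpace.exp ((t0 : ℂ) • X0.adj) *ᵥ lift (pw z) 0 = lift (fun i => pw z (i + 1)) 0 := by
  rw [U_pw z hz, he, lift_smul]
  congr 1
  · funext i; rw [pw_add z hz]
  · funext i; simp

theorem single_eq (j : ZMod 3) : (Pi.single (Sum.inl j) 1 : W → ℂ)
    = (1 / 3 : ℂ) • lift (pw 1) 0 + (pw (om ^ 2) j / 3) • lift (pw om) 0
      + (pw om j / 3) • lift (pw (om ^ 2)) 0 := by
  have hr := om_rel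
  have hc := om_cube
  have h0 : ∀ i : ZMod 3, i = 0 ∨ i = 1 ∨ i = 2 := by decide
  have e0 : (0 : ZMod 3).val = 0 := rfl
  have e1 : (1 : ZMod 3).val = 1 := rfl
  have e2 : (2 : ZMod 3).val = 2 := rfl
  ext v
  rcases v with i | x
  · have hs : (Pi.single (Sum.inl j) 1 : W → ℂ) (Sum.inl i) = if i = j then 1 else 0 := by
      rw [Pi.single_apply]
      simp
    rw [hs]
    simp only [Pi.add_apply, Pi.smul_apply, smul_eq_mul, lift, Sum.elim_inl]
    rcases h0 j with rfl | rfl | rfl <;> rcases h0 i with rfl | rfl | rfl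
    · rw [if_pos rfl]; simp only [pw, e0, e1, e2, pow_zero, pow_one, one_pow]; norm_num
    · rw [if_neg (by decide)]; simp only [pw, e0, e1, e2, pow_zero, pow_one, one_pow]
      linear_combination (-1 / 3 : ℂ) * hr
    · rw [if_neg (by decide)]; simp only [pw, e0, e1, e2, pow_zero, pow_one, one_pow]
      linear_combination (-1 / 3 : ℂ) * hr - (om / 3) * hc
    · rw [if_neg (by decide)]; simp only [pw, e0, e1, e2, pow_zero, pow_one, one_pow]
      linear_combination (-1 / 3 : ℂ) * hr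
    · rw [if_pos rfl]; simp only [pw, e0, e1, e2, pow_zero, pow_one, one_pow]
      linear_combination (-2 / 3 : ℂ) * hc
    · rw [if_neg (by decide)]; simp only [pw, e0, e1, e2, pow_zero, pow_one, one_pow]
      linear_combination (-1 / 3 : ℂ) * hr - (om / 3) * hc - (om ^ 2 / 3) * hc
    · rw [if_neg (by decide)]; simp only [pw, e0, e1, e2, pow_zero, pow_one, one_pow]
      linear_combination (-1 / 3 : ℂ) * hr - (om / 3) * hc
    · rw [if_neg (by decide)]; simp only [pw, e0, e1, e2, pow_zero, pow_one, one_pow]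
      linear_combination (-1 / 3 : ℂ) * hr - (om / 3) * hc - (om ^ 2 / 3) * hc
    · rw [if_pos rfl]; simp only [pw, e0, e1, e2, pow_zero, pow_one, one_pow]
      linear_combination (-2 / 3 : ℂ) * (om ^ 3 + 1) * hc
  · simp [lift]

/-- `U(t0) e_j = e_(j-1)` -/
theorem U_single (j : ZMod 3) :
    NormedSpace.exp ((t0 : ℂ) • X0.adj) *ᵥ (Pi.single (Sum.inl j) 1 : W → ℂ)
      = Pi.single (Sum.inl (j - 1)) 1 := by
  have h1 := shift_pw 1 (by norm_num) (by
    norm_num)
  have h2 := shift_pw om om_cube exp_om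
  have h3 := shift_pw (om ^ 2) (by linear_combination (om ^ 3 + 1) * om_cube) exp_om2
  rw [single_eq j, Matrix.mulVec_add, Matrix.mulVec_add, Matrix.mulVec_smul, Matrix.mulVec_smul,
    Matrix.mulVec_smul, h1, h2, h3]
  have h4 := single_eq j
  ext v
  rcases v with i | x
  · have h5 := congrFun h4 (Sum.inl (i + 1))
    simp only [Pi.add_apply, Pi.smul_apply, smul_eq_mul, lift, Sum.elim_inl] at h5 ⊢
    rw [← h5, Pi.single_apply, Pi.single_apply]
    by_cases h : i + 1 = j
    · rw [if_pos (by rw [h]), if_pos (by rw [← h, add_sub_cancel_right])]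
    · rw [if_neg (fun h' => h (Sum.inl.inj h')), if_neg (fun h' => h (by
        rw [Sum.inl.inj h', sub_add_cancel]))]
  · simp [lift]

theorem U_single2 (j : ZMod 3) :
    NormedSpace.exp (((2 * t0 : ℝ) : ℂ) • X0.adj) *ᵥ (Pi.single (Sum.inl j) 1 : W → ℂ)
      = Pi.single (Sum.inl (j + 1)) 1 := by
  have h1 : ((2 * t0 : ℝ) : ℂ) • X0.adj = (t0 : ℂ) • X0.adj + (t0 : ℂ) • X0.adj := by
    rw [← add_smul]; congr 1; push_cast; ring
  rw [h1, Matrix.exp_add_of_commute _ _ (Commute.refl _), ← Matrix.mulVec_mulVec, U_single, U_single]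
  congr 2
  revert j
  decide

theorem pst (i j : ZMod 3) (h : i ≠ j) : X0.PST (Sum.inl i) (Sum.inl j) := by
  have h0 : ∀ i j : ZMod 3, i ≠ j → j = i - 1 ∨ j = i + 1 := by decide
  rcases h0 i j h with rfl | rfl
  · exact ⟨t0, 1, by simp, by rw [U_single, one_smul]⟩
  · exact ⟨2 * t0, 1, by simp, by rw [U_single2, one_smul]⟩

/-- adjacency in the underlying graph -/
def ad (u v : W) : Prop := arcs u v ∨ arcs v u

theorem adj_ne_zero (u v : W) : X0.adj u v ≠ 0 ↔ ad u v := by
  rw [adj_eq]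
  unfold ad
  by_cases h : arcs u v
  · rw [if_pos h, if_neg (arcs_asymm _ _ h)]; simp [h]
  · by_cases h' : arcs v u
    · rw [if_neg h, if_pos h']; simp [h']
    · rw [if_neg h, if_neg h']; simp [h, h']

/-- the distinguishing property: the neighbourhood of `v` contains a path with three vertices -/
def R (v : W) : Prop := ∃ x y z, ad v x ∧ ad v y ∧ ad v z ∧ ad x y ∧ ad y z ∧ x ≠ z

theorem R0 : R (Sum.inl 0) := by
  refine ⟨Sum.inr (0, 0), Sum.inr (0, 1), Sum.inr (0, 2), Or.inl rfl, Or.inl rfl, Or.inl rfl,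
    Or.inl (Or.inr ⟨rfl, rfl, ?_⟩), Or.inl (Or.inr ⟨rfl, rfl, ?_⟩), ?_⟩
  · decide
  · decide
  · decide

theorem R1 : ¬ R (Sum.inl 1) := by
  have hn : ∀ u, ad (Sum.inl 1) u → (u = Sum.inl 0 ∨ u = Sum.inl 2 ∨ ∃ t, u = Sum.inr (1, t)) := by
    rintro (i | x) h
    · have h0 : ∀ i : ZMod 3, (i = 1 + 1 ∨ 1 = i + 1) → i = 0 ∨ i = 2 := by decide
      rcases h0 i h with rfl | rfl
      · exact Or.inl rfl
      · exact Or.inr (Or.inl rfl)
    · rcases h with h | h
      · right; right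
        have h' : (1 : ZMod 3) = x.1 := h
        exact ⟨x.2, by rw [h']⟩
      · exact absurd h id
  have hna : ∀ t, ¬ ad (Sum.inl 0) (Sum.inr (1, t)) := by
    intro t h
    rcases h with h | h
    · exact absurd (show (0 : ZMod 3) = 1 from h) (by decide)
    · exact h
  have hnb : ∀ t, ¬ ad (Sum.inl 2) (Sum.inr (1, t)) := by
    intro t h
    rcases h with h | h
    · exact absurd (show (2 : ZMod 3) = 1 from h) (by decide)
    · exact h
  have hnc : ∀ t t', ¬ ad (Sum.inr (1, t)) (Sum.inr (1, t')) := by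
    intro t t' h
    have h1 : ∀ P Q : Prop, ¬ (((1 : ZMod 3) = 1 + 1 ∧ P) ∨ ((1 : ZMod 3) = 0 ∧ (1 : ZMod 3) = 0 ∧ Q)) := by
      intro P Q h
      rcases h with ⟨h, -⟩ | ⟨h, -, -⟩
      · exact absurd h (by decide)
      · exact absurd h (by decide)
    rcases h with h | h
    · exact h1 _ _ h
    · exact h1 _ _ h
  have hsym : ∀ u v, ad u v → ad v u := fun u v h => Or.symm h
  have hirr : ∀ u, ¬ ad u u := by
    intro u h
    rcases h with h | h <;> exact arcs_asymm _ _ h h
  rintro ⟨x, y, z, hx, hy, hz, hxy, hyz, hxz⟩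
  rcases hn y hy with rfl | rfl | ⟨t, rfl⟩
  · rcases hn x hx with rfl | rfl | ⟨t, rfl⟩
    · exact hirr _ hxy
    · rcases hn z hz with rfl | rfl | ⟨t, rfl⟩
      · exact hirr _ hyz
      · exact hxz rfl
      · exact hna _ hyz
    · exact hna _ (hsym _ _ hxy)
  · rcases hn x hx with rfl | rfl | ⟨t, rfl⟩
    · rcases hn z hz with rfl | rfl | ⟨t, rfl⟩
      · exact hxz rfl
      · exact hirr _ hyz
      · exact hnb _ hyz
    · exact hirr _ hxy
    · exact hnb _ (hsym _ _ hxy)
  · rcases hn x hx with rfl | rfl | ⟨t', rfl⟩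
    · exact hna _ hxy
    · exact hnb _ hxy
    · exact hnc _ _ hxy

theorem R_iff (σ : Equiv.Perm W) (s : W → ℤˣ) (h : X0.IsSwitchingAutomorphism σ s) (v : W) :
    R v ↔ R (σ v) := by
  have had : ∀ u v, ad (σ u) (σ v) ↔ ad u v := by
    intro u v
    rw [← adj_ne_zero, ← adj_ne_zero, ← h u v]
    have h1 : ((s u : ℤ) : ℂ) ≠ 0 := by
      exact_mod_cast (s u).ne_zero
    have h2 : ((s v : ℤ) : ℂ) ≠ 0 := by
      exact_mod_cast (s v).ne_zero
    constructor
    · intro h3; exact mul_ne_zero (mul_ne_zero h1 h2) h3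
    · intro h3; exact right_ne_zero_of_mul h3
  constructor
  · rintro ⟨x, y, z, hx, hy, hz, hxy, hyz, hxz⟩
    exact ⟨σ x, σ y, σ z, (had _ _).2 hx, (had _ _).2 hy, (had _ _).2 hz, (had _ _).2 hxy,
      (had _ _).2 hyz, fun h => hxz (σ.injective h)⟩
  · rintro ⟨x, y, z, hx, hy, hz, hxy, hyz, hxz⟩
    obtain ⟨x, rfl⟩ := σ.surjective x
    obtain ⟨y, rfl⟩ := σ.surjective y
    obtain ⟨z, rfl⟩ := σ.surjective z
    exact ⟨x, y, z, (had _ _).1 hx, (had _ _).1 hy, (had _ _).1 hz, (had _ _).1 hxy,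
      (had _ _).1 hyz, fun h => hxz (by rw [h])⟩

theorem R_pow (σ : Equiv.Perm W) (s : W → ℤˣ) (h : X0.IsSwitchingAutomorphism σ s) (v : W) (k : ℕ) :
    R v ↔ R ((σ ^ k) v) := by
  induction k with
  | zero => simp
  | succ k ih =>
    rw [ih, pow_succ', Equiv.Perm.mul_apply]
    exact R_iff σ s h _

/-- the set of the three special vertices -/
def S0 : Finset W := Finset.univ.image (fun i : ZMod 3 => (Sum.inl i : W))

theorem main : S0.card = 3 ∧ (∀ a ∈ S0, ∀ b ∈ S0, a ≠ b → X0.PST a b) ∧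
    ¬ X0.ArisesFromSwitching S0 := by
  refine ⟨?_, ?_, ?_⟩
  · unfold S0
    rw [Finset.card_image_of_injective _ Sum.inl_injective]
    rfl
  · intro a ha b hb hab
    unfold S0 at ha hb
    rw [Finset.mem_image] at ha hb
    obtain ⟨i, -, rfl⟩ := ha
    obtain ⟨j, -, rfl⟩ := hb
    exact pst i j (fun h => hab (by rw [h]))
  · rintro ⟨σ, s, h, a, ha, -, hS⟩
    have hm : ∀ i : ZMod 3, (Sum.inl i : W) ∈ S0 := fun i =>
      Finset.mem_image.2 ⟨i, Finset.mem_univ _, rfl⟩
    obtain ⟨k, hk⟩ := hS _ (hm 0)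
    obtain ⟨l, hl⟩ := hS _ (hm 1)
    have h1 := R_pow σ s h a k
    have h2 := R_pow σ s h a l
    rw [hk] at h1
    rw [hl] at h2
    exact R1 (h2.1 (h1.2 R0))

/-- There are an oriented graph `X` and a set `S` of three vertices with multiple state transfer on
`S` which does not arise from a switching automorphism. -/
theorem result : ∃ (V : Type) (_ : Fintype V) (_ : DecidableEq V) (X : OrientedGraph V)
    (S : Finset V), 3 ≤ S.card ∧ (∀ a ∈ S, ∀ b ∈ S, a ≠ b → X.PST a b) ∧
      ¬ X.ArisesFromSwitching S :=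
  ⟨W, inferInstance, inferInstance, X0, S0, main.1.ge, main.2.1, main.2.2⟩

end Pool.Agent.Results.MP_620d87_co.NoSwitching
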